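import Mathlib

/-!
# AC⁰ reductions between the problems `p-WSAT(Γ_{2,d})`: definitions
-/

set_option autoImplicit false

namespace Pool.Agent.Lib.MP_b4f117_lc.AC

/-! ### Weighted satisfiability; formulas are given by incidence matrices -/

/-- The conjunctions of at most `d` literals over the variables `0, …, ν - 1`: sets of literals
(a variable and a sign, `true`: the variable, `false`: its negation) with at most `d` elements. -/
abbrev Tm (d ν : ℕ) : Type := {T : Finset (Fin ν × Bool) // T.card ≤ d}

/-- A formula in `Γ_{2,d}` with `μ` clauses over `ν` variables, given by its incidence matrix: the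
clause `i` is the disjunction of all conjunctions `T` with `x (i, T) = true`, the formula is the
conjunction of its clauses. -/
abbrev Mat (d ν μ : ℕ) : Type := Fin μ × Tm d ν → Bool

/-- The variable `u` occurs in the formula. -/
def Occ {d ν μ : ℕ} (x : Mat d ν μ) (u : Fin ν) : Prop :=
  ∃ (i : Fin μ) (T : Tm d ν), x (i, T) = true ∧ ∃ b, (u, b) ∈ T.1

/-- The conjunction `T` is true if `W` is the set of the true variables. -/
def TmHolds {d ν : ℕ} (W : Finset (Fin ν)) (T : Tm d ν) : Prop :=
  ∀ l ∈ T.1, (l.1 ∈ W ↔ l.2 = true)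

/-- The formula has a satisfying assignment (of the variables which occur in it) of weight exactly
`k`. -/
def WSat {d ν μ : ℕ} (x : Mat d ν μ) (k : ℕ) : Prop :=
  ∃ W : Finset (Fin ν), (∀ u ∈ W, Occ x u) ∧ W.card = k ∧
    ∀ i, ∃ T : Tm d ν, x (i, T) = true ∧ TmHolds W T

/-! ### Circuits -/

/-- Circuits (formulas) with inputs indexed by `I`: literals `x i = b`, and gates of unbounded
fan-in, `gate true n f` is the disjunction and `gate false n f` the conjunction of
`f 0, …, f (n - 1)`. -/
inductive Circ (I : Type) : Type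
  | lit : I → Bool → Circ I
  | gate : Bool → (n : ℕ) → (Fin n → Circ I) → Circ I

namespace Circ

variable {I : Type}

/-- The value of the circuit at the input `x`. -/
def eval (x : I → Bool) : Circ I → Bool
  | lit i b => x i == b
  | gate true n f => decide (∃ j : Fin n, (f j).eval x = true)
  | gate false n f => decide (∀ j : Fin n, (f j).eval x = true)

/-- The depth of the circuit. -/
def depth : Circ I → ℕ
  | lit _ _ => 0
  | gate _ _ f => (Finset.univ.sup fun j => (f j).depth) + 1

/-- The number of gates and literals of the circuit. -/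
def size : Circ I → ℕ
  | lit _ _ => 1
  | gate _ _ f => 1 + ∑ j, (f j).size

theorem eval_lit (x : I → Bool) (i : I) (b : Bool) :
    (lit i b).eval x = true ↔ x i = b := by
  simp [eval]

theorem eval_or (x : I → Bool) (n : ℕ) (f : Fin n → Circ I) :
    (gate true n f).eval x = true ↔ ∃ j, (f j).eval x = true := by
  simp [eval]

theorem eval_and (x : I → Bool) (n : ℕ) (f : Fin n → Circ I) :
    (gate false n f).eval x = true ↔ ∀ j, (f j).eval x = true := by
  simp [eval]

theorem depth_lit (i : I) (b : Bool) : (lit i b).depth = 0 := rfl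

theorem depth_gate (b : Bool) (n : ℕ) (f : Fin n → Circ I) :
    (gate b n f).depth = (Finset.univ.sup fun j => (f j).depth) + 1 := rfl

theorem size_lit (i : I) (b : Bool) : (lit i b).size = 1 := rfl

theorem size_gate (b : Bool) (n : ℕ) (f : Fin n → Circ I) :
    (gate b n f).size = 1 + ∑ j, (f j).size := rfl

end Circ

/-! ### AC⁰ reductions -/

/-- `AC0Red p d d'`: there are constants `h`, `c` and, for every number `ν` of variables, `μ` of
clauses and every parameter `k`, circuits of depth at most `h` and size at most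
`(2 ^ k * (ν + μ + 2)) ^ c` which reduce `p-WSAT(Γ_{2,d})` to `p-WSAT(Γ_{2,d'})`, with the new
parameter at most `c * (k + log (ν + μ + 2)) ^ p`.

The circuits compute from the incidence matrix `x` of a formula in `Γ_{2,d}` the incidence matrix
of a formula in `Γ_{2,d'}` with `L` clauses over `M` variables, and the new parameter `κ ≤ P`
(`par j` tells whether `κ = j`). -/
def AC0Red (p d d' : ℕ) : Prop :=
  ∃ h c : ℕ, ∀ ν μ k : ℕ, ∃ (M L P : ℕ) (out : Fin L × Tm d' M → Circ (Fin μ × Tm d ν))
      (par : ℕ → Circ (Fin μ × Tm d ν)),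
    M ≤ (2 ^ k * (ν + μ + 2)) ^ c ∧ L ≤ (2 ^ k * (ν + μ + 2)) ^ c ∧
    P ≤ c * (k + Nat.log 2 (ν + μ + 2)) ^ p ∧
    (∀ j, (out j).depth ≤ h ∧ (out j).size ≤ (2 ^ k * (ν + μ + 2)) ^ c) ∧
    (∀ j ≤ P, (par j).depth ≤ h ∧ (par j).size ≤ (2 ^ k * (ν + μ + 2)) ^ c) ∧
    ∀ x : Mat d ν μ, ∃ κ ≤ P, (∀ j ≤ P, (par j).eval x = true ↔ j = κ) ∧
      (WSat x k ↔ WSat (fun j => (out j).eval x : Mat d' M L) κ)

end Pool.Agent.Lib.MP_b4f117_lc.AC
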