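import Pool.Agent.Lib.MP_b4f117_lc.AC.Hyp

/-!
# AC⁰ reductions between the problems `p-WSAT(Γ_{2,d})`: statements of the pieces

Every statement `S_x` is to be proved in the file `P/X.lean` as `p_x`.
-/

set_option autoImplicit false

open Finset

namespace Pool.Agent.Lib.MP_b4f117_lc.AC

/-! ## A. The switching lemma -/

/-- the constant of the switching lemma; `m = card G` -/
def Cst (m w Q : ℕ) : ℕ := (w + 2) * (2 ^ w * 2 ^ ((2 * w) ^ m)) ^ (w + 1) * Q ^ ((2 * w) ^ m)

/-- [EW sw] The switching lemma: if `f` has certificates of `w` vertices for the value true then,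
for most `(β, z)`, the restricted function has such certificates for the value false.

Proof (Razborov). Notation: `em U = U.image (up β)` (`up β` is injective); `Wi (kap β e) (em U) ↔
Wi e U`, and `Wi e' (em U) → e' = kap β (prj e')`. A term is a pair `t = (T, α)`, valid if
`T.card ≤ w` and `f x` for all `x` with `∀ e, Wi e T → x e = α e` (`x` satisfies `t`). Fix an injective
`rank : terms → ℕ`. By `Cert`: `f x` iff `x` satisfies some valid term; let `first x` be the one with
the least rank. For `S`, `η`, `z` let `ov S η z e = if Wi e S then η e else decide (z e = 0)`.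
States: `R 0 z S η = {(S, η)}`; `R (j+1) z S η = ∅` if not `f (ov S η z)`, otherwise the union of the
`R j z (S ∪ S₁) η'` over all `S₁ ⊆ T` (`T` the set of vertices of `first (ov S η z)`) with
`(S ∪ S₁).card ≤ 2 w` and all `η'` with `η' e = false` whenever `¬ Wi e (S ∪ S₁)`. There are at most
`(2 w) ^ card G` entries `e` with `Wi e S'` if `S'.card ≤ 2 w` (`Finset.piFinset`), so
`card (R j z S η) ≤ (2 ^ w * 2 ^ ((2 w) ^ card G)) ^ j`.
Claim. Let `(β, z)`, `y` be such that for every `U` with `U.card ≤ w` there is `y'` with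
`y' e = y e` for all `e` with `Wi e U` and `f (Fill β z y')` (bad), and `¬ f (Fill β z y)`. For
every `U`, `U.card ≤ w`, there are `U'`, `w < U'.card ≤ 2 w`, `U ⊆ U'` and `θ` such that for all `z''` with
`z'' e = z e` unless `Wi e (em U')` and `z'' e = θ e` if `Wi e (em U')` and `¬ Wi e (em U)` there is
`j ≤ w + 1 - U.card` with `(em U', η U') ∈ R j z'' (em U) (η U)`, where
`η U e = if Wi e (em U) then y (prj e) else false`. Proof: induction on `w + 1 - U.card`. Let `t = (T, α)`
be the valid term of least rank that is satisfied by some `Fill β z y'` with `y' = y` within `U`;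
fix `y'`. Let `U₁ = {u | up β u ∈ T}` (so `em U₁ ⊆ T`, `U₁.card ≤ w`), `U⁺ = U ∪ U₁`. `U⁺ ≠ U`: otherwise
`Fill β z y` satisfies `t` (an entry within `T` is either not of the form `kap β e`, and then has the
value of `z`, or it is `kap β e` with `e` within `U₁ ⊆ U`, and `y e = y' e`), so `f (Fill β z y)`. If
`U⁺.card > w` let `U' = U⁺`, otherwise take `U'`, `θ⁺` from the induction hypothesis for `U⁺`. Let
`θ (kap β e)` be `0` or `1` (`2 ≤ Q`) such that `decide (θ = 0) = y' e` for `e` within `U⁺`, and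
`θ = θ⁺` elsewhere. For `z''` as in the claim `x = ov (em U) (η U) z''` equals `Fill β z y''` with
`y'' e = y e` for `e` within `U` and `y'' e = decide (z'' (kap β e) = 0)` otherwise; so no valid term of smaller
rank than `t` is satisfied by `x`, and `t` is satisfied by `x` (entries within `T` as above:
`kap β e` with `e` within `U₁`, where `y'' e = y' e`). So `first x = t`, and
`(em U⁺, η U⁺)` is the next state.
Counting. For a bad `(β, z)` (`y` exists since `Cert w (fun y => ¬ f (Fill β z y))` fails) apply the claim to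
`U = ∅`; let `z'` be `θ` within `em U'` and `z` elsewhere. Consider the triples `(β, z, β')` with `(β, z)` bad and
`β' = β` outside `U'(β, z)`: for every `(β, z)` there are `B ^ U'.card ≥ B ^ (w + 1)` of them. The map
`(β, z, β') ↦ (β', z', em U', z restricted to the entries within em U')` is injective: `U'` is the
projection of `em U'`, `β` on `U'` is given by `em U'`, `β = β'` outside `U'`; `z` is known within `em U'`,
elsewhere `z = z'`. For given `(β', z')` the set `em U'` is the first component of an element of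
`⋃ j ≤ w + 1, R j z' ∅ (fun _ => false)`, and there are at most `Q ^ ((2 w) ^ card G)` possibilities for
the last component. -/
def S_sw : Prop := ∀ {G : Type} [Fintype G] [DecidableEq G] {q B Q : ℕ} [NeZero Q] {A : Type}
  [Fintype A] [DecidableEq A] (w : ℕ) (f : (Ent G q (A × Fin B) → Bool) → Prop), 2 ≤ Q →
  Cert w f →
  Nat.card {p : (Vx G q A → Fin B) × (Ent G q (A × Fin B) → Fin Q) //
      ¬ Cert w (fun y => ¬ f (Fill p.1 p.2 y))} * B ^ (w + 1) ≤
    Cst (Fintype.card G) w Q *
      Nat.card ((Vx G q A → Fin B) × (Ent G q (A × Fin B) → Fin Q))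

/-- [EW or] A disjunction of predicates with certificates has certificates; constants; larger `w`. -/
def S_or : Prop := ∀ {G : Type} {q : ℕ} {A : Type} (w : ℕ),
  (∀ (S : Type) (f : S → (Ent G q A → Bool) → Prop), (∀ s, Cert w (f s)) →
    Cert w (fun x => ∃ s, f s x)) ∧
  (∀ P : Prop, Cert w (fun _ : Ent G q A → Bool => P)) ∧
  (∀ (f : (Ent G q A → Bool) → Prop) (w' : ℕ), w ≤ w' → Cert w f → Cert w' f)

/-- [EW lit] `x e = b` has certificates of `card G` vertices (`U = {(g, e g)}`). -/
def S_lit : Prop := ∀ {G : Type} [Fintype G] [DecidableEq G] {q : ℕ} {A : Type} [DecidableEq A]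
  (e : Ent G q A) (b : Bool), BC (Fintype.card G) (fun x : Ent G q A → Bool => x e = b)

/-- [EW fill] Restrictions preserve certificates: the certificate of `y` is
`{u | up β u ∈ U}` for a certificate `U` of `Fill β z y`. -/
def S_fill : Prop := ∀ {G : Type} [Fintype G] [DecidableEq G] {q B Q : ℕ} [NeZero Q] {A : Type}
  [Fintype A] [DecidableEq A] (w : ℕ) (f : (Ent G q (A × Fin B) → Bool) → Prop)
  (β : Vx G q A → Fin B) (z : Ent G q (A × Fin B) → Fin Q),
  Cert w f → Cert w (fun y => f (Fill β z y))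

/-! ## B. The stages -/

/-- every gate `i` with `δ i = d + 1` is a disjunction or conjunction of gates of level at most
`d` -/
def Str {ι X : Type} (δ : ι → ℕ) (ev : ι → X → Prop) : Prop :=
  ∀ i d, δ i = d + 1 →
    (∃ S : Set ι, (∀ i' ∈ S, δ i' ≤ d) ∧ ∀ x, ev i x ↔ ∃ i' ∈ S, ev i' x) ∨
    (∃ S : Set ι, (∀ i' ∈ S, δ i' ≤ d) ∧ ∀ x, ev i x ↔ ∀ i' ∈ S, ev i' x)

/-- all gates of level at most `d` have certificates -/
def Lay {ι G A : Type} {q : ℕ} (w d : ℕ) (δ : ι → ℕ)
    (ev : ι → (Ent G q A → Bool) → Prop) : Prop :=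
  ∀ i, δ i ≤ d → BC w (ev i)

/-- [EW one] One stage. Uses `S_sw`, `S_or`, `S_fill`.

Proof: if `Lay w (d + 1) δ (fun i y => ev i (Fill β z y))` fails then there is a gate `i` with
`δ i ≤ d + 1` whose restriction does not have both certificates. By `S_fill` `δ i = d + 1`. If `ev i` is a
disjunction of gates of level `≤ d` then `Cert w (ev i)` by `S_or`, hence (`S_fill`)
`Cert w` of the restriction, so `Cert w (fun y => ¬ ev i (Fill β z y))` fails; `S_sw` for `f = ev i`.
If it is a conjunction, `Cert w (fun x => ¬ ev i x)` and `S_sw` is applied to `f = ¬ ev i`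
(`¬ ¬` removed). Union bound over `i` and the two cases. -/
def S_one : Prop := ∀ {G : Type} [Fintype G] [DecidableEq G] {q B Q : ℕ} [NeZero Q] {A : Type}
  [Fintype A] [DecidableEq A] (w d : ℕ) (ι : Type) [Fintype ι] (δ : ι → ℕ)
  (ev : ι → (Ent G q (A × Fin B) → Bool) → Prop), 2 ≤ Q → Str δ ev → Lay w d δ ev →
  Nat.card {p : (Vx G q A → Fin B) × (Ent G q (A × Fin B) → Fin Q) //
      ¬ Lay w (d + 1) δ (fun i y => ev i (Fill p.1 p.2 y))} * B ^ (w + 1) ≤
    2 * Fintype.card ι * Cst (Fintype.card G) w Q *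
      Nat.card ((Vx G q A → Fin B) × (Ent G q (A × Fin B) → Fin Q))

/-- [EW stages] All stages. Uses `S_one`.

Proof: induction on `j`, for all `ev` and `d`. `j = 0`: nothing fails. Step (`N = 2 card ι Cst`):
the level `j + 1` input is `Fill b.1 z (Emb j b.2 (z ∘ kap b.1) y)`. Let `ev' i y = ev i (Fill b.1 z y)`
(a family on level `j` inputs, which satisfies `Str`). If the conclusion fails for
`((b₁, b₂), z)` then either `Lay w (d + 1) δ ev'` fails, at most `N / B ^ (w + 1)` of the pairs `(b₁, z)`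
by `S_one` (times the number of the `b₂`), or it holds and the conclusion of the induction hypothesis (for `ev'`,
`d + 1`) fails for `(b₂, z ∘ kap b₁)`. To count the second kind fix `b₁`; for
`z' : Ent (Lv B j) → Fin Q` let `z[z']` be `z` with the values at `kap b₁ e` replaced by `z' e`. The map
`(z, z') ↦ (z[z'], z ∘ kap b₁)` is an involution, and `Fill b₁ z[z'] = Fill b₁ z` (the values of `z` at
`kap b₁ e` are not used). So the number of the `(b₂, z)` for which it fails at `(b₂, z ∘ kap b₁)` with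
`ev'` from `z`, times the number of all `z'`, is the number of the `(b₂, z, z')` such that it fails at
`(b₂, z')` with `ev'` from `z`; for every fixed `z` (with `Lay w (d + 1) δ ev'`) bound the number of
the `(b₂, z')` by the induction hypothesis. -/
def S_stages : Prop := ∀ {G : Type} [Fintype G] [DecidableEq G] {q B Q : ℕ} [NeZero Q]
  (w j d : ℕ) (ι : Type) [Fintype ι] (δ : ι → ℕ)
  (ev : ι → (Ent G q (Lv B j) → Bool) → Prop), 2 ≤ Q → Str δ ev → Lay w d δ ev →
  Nat.card {p : Be G q B j × (Ent G q (Lv B j) → Fin Q) //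
      ¬ Lay w (d + j) δ (fun i y => ev i (Emb j p.1 p.2 y))} * B ^ (w + 1) ≤
    j * (2 * Fintype.card ι * Cst (Fintype.card G) w Q) *
      Nat.card (Be G q B j × (Ent G q (Lv B j) → Fin Q))

/-! ## C. The planted inputs -/

/-- [EW emb] Explicit form of `Emb`.
Proof: induction on `j`; `e = kap b.1 e'` and `e' = ent (pt j b.2) _` iff
`e = ent (pt (j + 1) b) _`. -/
def S_emb : Prop := ∀ {G : Type} [Fintype G] [DecidableEq G] {q B Q : ℕ} [NeZero Q]
  (j : ℕ) (b : Be G q B j) (z : Ent G q (Lv B j) → Fin Q) (y : Ent G q Unit → Bool),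
  (∀ J : G → Fin q, Emb j b z y (ent (pt j b) J) = y (fun g => (J g, ()))) ∧
  (∀ e : Ent G q (Lv B j), e ≠ ent (pt j b) (fun g => (e g).1) →
    Emb j b z y e = decide (z e = 0))

/-- `card (Lv B j) = B ^ j` -/
def S_lvcard : Prop := ∀ B j : ℕ, Fintype.card (Lv B j) = B ^ j

/-- [EW uniq] For at most half of the noises `z` there is a transversal `s ≠ s₀` all of whose
anchors `ent s (Sum.elim a a)` have noise `0` or are planted.

Proof: for `s ≠ s₀` let `D = {(g, c) | s g c ≠ s₀ g c}` and `t(s)` the number of the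
`a : Fin r → Fin q` such that `ent s (Sum.elim a a) ≠ ent s₀ (Sum.elim a a)`, i.e.
`(inl i, a i) ∈ D` or `(inr i, a i) ∈ D` for some `i`. The entries `ent s (Sum.elim a a)` are
different for different `a`, so the number of the `z` which vanish at all `t(s)` of them is
`card Z / Q ^ t(s)`. For some group `g` the number of the `c` with `(g, c) ∈ D` is at least
`D.card / (2 r)`, so `2 r t(s) ≥ D.card * q ^ (r - 1) ≥ D.card * q` and
`Q ^ t(s) = (2 ^ (H + 1)) ^ (2 r t(s)) ≥ 2 ^ ((H + 1) q D.card)`. There are at most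
`∏_{(g,c)} (if (g,c) ∈ D then N else 1) = N ^ D.card` functions `s` with the set `D`
(`N = 2 ^ (q H) = card A`), so the number of the bad `z` is at most
`card Z * ∑_{D ≠ ∅} (2 ^ (- q)) ^ D.card = card Z * ((1 + 2 ^ (- q)) ^ (2 r q) - 1)` and
`(1 + x) ^ m - 1 ≤ exp (m x) - 1 ≤ 2 m x` for `m x ≤ 1`, here `2 m x = 4 r q / 2 ^ q ≤ 1 / 2`. -/
def S_uniq : Prop := ∀ (r q H : ℕ) {A : Type} [Fintype A] [DecidableEq A]
  [NeZero ((2 ^ (H + 1)) ^ (2 * r))], 2 ≤ r → Fintype.card A = 2 ^ (q * H) → 8 * r * q ≤ 2 ^ q →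
  ∀ s₀ : (Fin r ⊕ Fin r) → Fin q → A,
  2 * Nat.card {z : Ent (Fin r ⊕ Fin r) q A → Fin ((2 ^ (H + 1)) ^ (2 * r)) //
      ∃ s, s ≠ s₀ ∧ ∀ a : Fin r → Fin q, ent s (Sum.elim a a) ≠ ent s₀ (Sum.elim a a) →
        z (ent s (Sum.elim a a)) = 0} ≤
    Nat.card (Ent (Fin r ⊕ Fin r) q A → Fin ((2 ^ (H + 1)) ^ (2 * r)))

/-! ## D. The tree lemma -/

/-- [EW tree] Rows `R`, choices `X`, `ok i x`: the choice `x` is allowed in the row `i`. If every zero
`y` of `F` has a certificate of at most `t` entries, and `F y` fails whenever `y` vanishes at all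
allowed choices of some row, then `F` accepts at most `t ^ card R` of the allowed selections.

Proof: for `D : Finset R` and `p : R → X` (only `p` on `D` matters) let `N(D, p)` be the set of the
allowed `e` with `F (sel e)`, `e = p` on `D`. Claim: `card N(D, p) ≤ t ^ (card R - D.card)`, by induction
on `card R - D.card`. If `D = univ` there is at most one `e`. Otherwise let `y (i, x) = true` iff
`i ∈ D ∧ p i = x`; it vanishes on a row, so `¬ F y`; let `T` be a certificate. If `e ∈ N(D, p)` then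
`F (sel e)`, so `sel e (i, x) ≠ y (i, x)` for some `(i, x) ∈ T`, which means `i ∉ D`, `e i = x`. So
`N(D, p)` is contained in the union over `(i, x) ∈ T`, `i ∉ D`, of the
`N(D ∪ {i}, update p i x)`. -/
def S_tree : Prop := ∀ (R X : Type) [Fintype R] [DecidableEq R] [Fintype X] [DecidableEq X]
  (ok : R → X → Prop) (F : (R × X → Bool) → Prop) (t : ℕ),
  (∀ y, ¬ F y → ∃ T : Finset (R × X), T.card ≤ t ∧
    ∀ y' : R × X → Bool, (∀ p ∈ T, y' p = y p) → ¬ F y') →
  (∀ y, (∃ i, ∀ x, ok i x → y (i, x) = false) → ¬ F y) →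
  Nat.card {e : R → X // (∀ i, ok i (e i)) ∧ F (fun p => decide (e p.1 = p.2))} ≤
    t ^ Fintype.card R

/-! ## E. The source instances -/

section Src

variable (r q : ℕ) (A : Type) [Fintype A] [DecidableEq A]

/-- index type of the clauses: main clauses, anchor clauses, colour clauses -/
abbrev Rw : Type := ((Fin r → Fin q) ⊕ (Fin r → Fin q)) ⊕ ((Fin r ⊕ Fin r) × Fin q)

/-- the number of variables -/
abbrev nv : ℕ := Fintype.card (Vx (Fin r ⊕ Fin r) q A)

/-- the number of clauses -/
abbrev nc : ℕ := Fintype.card (Rw r q)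

variable {r q A}

/-- the conjunction of the vertices of an entry -/
def tset (φ : Vx (Fin r ⊕ Fin r) q A ≃ Fin (nv r q A)) (e : Ent (Fin r ⊕ Fin r) q A) :
    Finset (Fin (nv r q A) × Bool) := Finset.univ.image fun g => (φ (g, e g), true)

/-- the colours of the first groups -/
def lcol (e : Ent (Fin r ⊕ Fin r) q A) : Fin r → Fin q := fun i => (e (Sum.inl i)).1

/-- the colours of the second groups -/
def rcol (e : Ent (Fin r ⊕ Fin r) q A) : Fin r → Fin q := fun i => (e (Sum.inr i)).1

open Classical in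
/-- the source instance -/
noncomputable def src (d : ℕ) (φ : Vx (Fin r ⊕ Fin r) q A ≃ Fin (nv r q A))
    (ψ : Rw r q ≃ Fin (nc r q)) (x : Ent (Fin r ⊕ Fin r) q A → Bool) :
    Mat d (nv r q A) (nc r q) := fun p =>
  match ψ.symm p.1 with
  | Sum.inl (Sum.inl a) =>
    decide (∃ e, lcol e = a ∧ rcol e ≠ a ∧ x e = true ∧ p.2.1 = tset φ e)
  | Sum.inl (Sum.inr a) =>
    decide (∃ e, lcol e = a ∧ rcol e = a ∧ x e = true ∧ p.2.1 = tset φ e)
  | Sum.inr (g, c) => decide (∃ v : A, p.2.1 = {(φ (g, (c, v)), true)})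

/-- the transversal `s` is a solution -/
def Sol (x : Ent (Fin r ⊕ Fin r) q A → Bool) (s : (Fin r ⊕ Fin r) → Fin q → A) : Prop :=
  ∀ a : Fin r → Fin q, x (ent s (Sum.elim a a)) = true ∧
    ∃ b : Fin r → Fin q, b ≠ a ∧ x (ent s (Sum.elim a b)) = true

/-- [EW proj] Every entry of the matrix is constant or an entry of `x`.
Proof: `tset φ` is injective (`e g` is determined by `tset φ e`: `(φ (g, e g), true)` is its only
element coming from the group `g`). -/
def S_proj : Prop := ∀ (r q d : ℕ) {A : Type} [Fintype A] [DecidableEq A]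
  (φ : Vx (Fin r ⊕ Fin r) q A ≃ Fin (nv r q A)) (ψ : Rw r q ≃ Fin (nc r q))
  (p : Fin (nc r q) × Tm d (nv r q A)),
  (∃ b, ∀ x, src d φ ψ x p = b) ∨ (∃ e, ∀ x, src d φ ψ x p = x e)

/-- [EW srcsat] The solutions of weight `2 r q` are the transversals.
Proof: (⇐) `W = {φ (g, (c, s g c))}`; all its elements occur in the colour clauses
(the conjunction `{(φ (g, (c, v)), true)}` has one literal, `1 ≤ d`), `W.card = 2 r q`; the
main and anchor clauses contain `tset φ (ent s _)`, with at most `2 r ≤ d` literals. (⇒) For every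
colour `(g, c)` the colour clause gives `v` with `φ (g, (c, v)) ∈ W`; choose `s g c = v`. The `2 r q`
vertices `φ (g, (c, s g c))` are different, so `W` consists of them. The main clause `a` gives an entry `e` with
`lcol e = a`, `rcol e ≠ a`, `x e = true` and `φ (g, e g) ∈ W` for all `g`, so
`e g = ((e g).1, s g (e g).1)`, i.e. `e = ent s (Sum.elim a (rcol e))`. Same for the anchor
clause. -/
def S_srcsat : Prop := ∀ (r q d : ℕ) {A : Type} [Fintype A] [DecidableEq A]
  (φ : Vx (Fin r ⊕ Fin r) q A ≃ Fin (nv r q A)) (ψ : Rw r q ≃ Fin (nc r q))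
  (x : Ent (Fin r ⊕ Fin r) q A → Bool), 2 * r ≤ d → 1 ≤ d →
  (WSat (src d φ ψ x) (2 * r * q) ↔ ∃ s, Sol x s)

end Src

/-! ## F. The target instances -/

/-- [EW subs] The gates of finitely many circuits. For a list `fam` of circuits there is a family
`C : ι → Circ I`, closed under taking children, containing `fam`, with as many members as the total size.
Proof: `subs : Circ I → List (Circ I)`, `subs (lit i b) = [lit i b]`,
`subs (gate b n f) = gate b n f :: (List.ofFn fun j => subs (f j)).flatten`; its length is the size;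
by induction, the children of a member are members. Take `ι = Fin (length)` of the concatenation
over `fam`. -/
def S_subs : Prop := ∀ {I : Type} (fam : List (Circ I)),
  ∃ (m : ℕ) (C : Fin m → Circ I), m ≤ (fam.map Circ.size).sum ∧ (∀ c ∈ fam, ∃ i, C i = c) ∧
    (∀ i b n (f : Fin n → Circ I), C i = Circ.gate b n f → ∀ j, ∃ i', C i' = f j) ∧
    (∀ i, ∃ c ∈ fam, (C i).depth ≤ c.depth)

/-- [EW str] The gates of circuits satisfy `Str`. Uses nothing (the hypothesis is `S_subs`'s
conclusion). `δ i = (C i).depth`: a gate of depth `d + 1` has children of depth `≤ d`, and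
literals have depth `0`. -/
def S_str : Prop := ∀ {I X : Type} (m : ℕ) (C : Fin m → Circ I) (Φ : X → I → Bool),
  (∀ i b n (f : Fin n → Circ I), C i = Circ.gate b n f → ∀ j, ∃ i', C i' = f j) →
  Str (fun i => (C i).depth) (fun i x => (C i).eval (Φ x) = true)

/-- the assignment with the true variables `W` witnesses that the output is a yes-instance with
parameter `κ` -/
def OutOK {I : Type} {M L : ℕ} (out : Fin L × Tm 1 M → Circ I) (par : ℕ → Circ I) (κ : ℕ)
    (W : Finset (Fin M)) (x : I → Bool) : Prop :=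
  (par κ).eval x = true ∧ (∀ u ∈ W, Occ (fun j => (out j).eval x : Mat 1 M L) u) ∧
    ∀ c, ∃ T : Tm 1 M, (out (c, T)).eval x = true ∧ TmHolds W T

/-- [EW form] For fixed `κ`, `W` the output condition is a conjunction of disjunctions of at most
`2 P + 2` of few circuits.

Proof: the circuits `fam`: `par κ` (`κ ≤ P`); all `out (c, T)`; for `u < M` the disjunction
`occ u` of all `out (c, T)` with `T` containing `(u, true)` or `(u, false)`; for `c < L` and
`lo, hi ≤ M` the disjunction `gap c lo hi` of the `out (c, {(u, false)})`, `lo ≤ u < hi`. `Tm 1 M` has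
at most `2 M + 1` elements. Depths `≤ h + 1`, sizes `≤ 1 + (L (2 M + 1) + 1) s`. Numbers: `P + 1`,
`L (2 M + 1)`, `M`, `L (M + 1) ^ 2`. The conditions (index type `Λ = Unit ⊕ W ⊕ Fin L`): `par κ`; `occ u`
(`u ∈ W`); for the clause `c`: `out (c, ∅)`, `out (c, {(u, true)})` for `u ∈ W`, and `gap c lo (nx lo)`
for `lo ∈ {0} ∪ {u + 1 | u ∈ W}`, `nx lo` the least element of `W` that is `≥ lo`, or `M`; these
are `≤ 1 + W.card + (W.card + 1) ≤ 2 P + 2`. If `T` is true under `W` and `T = {(u, false)}` then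
`u ∉ W`; with `lo` the largest element of `{0} ∪ {u' + 1 | u' ∈ W}` that is `≤ u`,
`u < nx lo`. Conversely `lo ≤ u < nx lo` implies `u ∉ W`. -/
def S_form : Prop := ∀ {I : Type} (M L P h s : ℕ) (out : Fin L × Tm 1 M → Circ I)
  (par : ℕ → Circ I), (∀ j, (out j).depth ≤ h ∧ (out j).size ≤ s) →
  (∀ j ≤ P, (par j).depth ≤ h ∧ (par j).size ≤ s) → 1 ≤ s →
  ∃ fam : List (Circ I),
    fam.length ≤ (P + 1) + L * (2 * M + 1) + M + L * (M + 1) ^ 2 ∧
    (∀ c ∈ fam, c.depth ≤ h + 1 ∧ c.size ≤ 1 + (L * (2 * M + 1) + 1) * s) ∧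
    ∀ κ ≤ P, ∀ W : Finset (Fin M), W.card = κ →
      ∃ (Λ : Type) (D : Λ → Finset ℕ), (∀ l, (D l).card ≤ 2 * P + 2) ∧
        ∀ x : I → Bool, OutOK out par κ W x ↔
          ∀ l, ∃ n ∈ D l, ∃ c : Circ I, fam[n]? = some c ∧ c.eval x = true

/-- [EW ecert] From vertices to entries at level `0`: a conjunction of disjunctions of at most `T`
functions whose zeros have certificates of `w` vertices has certificates of `T * w ^ card G`
entries at its zeros. Proof: if the conjunction is false at `y` then some disjunction is, so all its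
members are; take the union of the sets of entries within their certificates (an entry within `U`
is a choice of one element of `U` for every group, so there are at most `U.card ^ card G`). -/
def S_ecert : Prop := ∀ {G : Type} [Fintype G] [DecidableEq G] {q : ℕ} (w T : ℕ)
  (F : (Ent G q Unit → Bool) → Prop) (fam : ℕ → (Ent G q Unit → Bool) → Prop)
  (Λ : Type) (D : Λ → Finset ℕ), (∀ l, (D l).card ≤ T) →
  (∀ l, ∀ n ∈ D l, Cert w (fun y => ¬ fam n y)) →
  (∀ y, F y ↔ ∀ l, ∃ n ∈ D l, fam n y) →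
  ∀ y, ¬ F y → ∃ E : Finset (Ent G q Unit), E.card ≤ T * w ^ Fintype.card G ∧
    ∀ y' : Ent G q Unit → Bool, (∀ e ∈ E, y' e = y e) → ¬ F y'

/-! ## G. Numbers and assembly -/

/-- the bound for the number of gates -/
def gates (P M L s : ℕ) : ℕ :=
  ((P + 1) + L * (2 * M + 1) + M + L * (M + 1) ^ 2) * (1 + (L * (2 * M + 1) + 1) * s)

/-- [EW num] The choice of the numbers. `H = h + 1`, `B = 2 ^ q`, `Q = (2 ^ (H + 1)) ^ (2 r)`,
`r = p + 1`, `ν = 2 r q 2 ^ (q H)`, `μ = 2 q ^ r + 2 r q`, `k = 2 r q`.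

Proof: for large `q`, `2 ^ k * (ν + μ + 2) ≤ 2 ^ (C q)` with `C = 2 r + H + 1`, so `M, L, s ≤ 2 ^ (c C q)`,
`P ≤ c ((C + 1) q) ^ p ≤ 2 ^ q`; the number of gates is at most `2 ^ (C' q)` with `C'` depending on
`c, C`; let `w = max (2 r) (C' + 2)`. First inequality: `B ^ (w + 1) ≥ 2 ^ (q (C' + 3))` beats
`2 ^ (C' q)` times a constant. Second: `(M + 1) ^ P (P + 1) ≤ 2 ^ (C'' q ^ (p + 1))`, and
`((2 P + 2) w ^ (2 r)) ≤ C''' q ^ p`, so it is enough that
`2 ^ C'' * C''' q ^ p < q ^ (p + 1) - 1`. -/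
def S_num : Prop := ∀ p h c : ℕ, 1 ≤ p → ∃ q w : ℕ, 2 ≤ q ∧ 2 * (p + 1) ≤ w ∧
  8 * (p + 1) * q ≤ 2 ^ q ∧
  ∀ M L P s : ℕ,
    M ≤ (2 ^ (2 * (p + 1) * q) *
      (2 * (p + 1) * (q * (2 ^ q) ^ (h + 1)) + (2 * q ^ (p + 1) + 2 * (p + 1) * q) + 2)) ^ c →
    L ≤ (2 ^ (2 * (p + 1) * q) *
      (2 * (p + 1) * (q * (2 ^ q) ^ (h + 1)) + (2 * q ^ (p + 1) + 2 * (p + 1) * q) + 2)) ^ c →
    s ≤ (2 ^ (2 * (p + 1) * q) *
      (2 * (p + 1) * (q * (2 ^ q) ^ (h + 1)) + (2 * q ^ (p + 1) + 2 * (p + 1) * q) + 2)) ^ c →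
    P ≤ c * (2 * (p + 1) * q + Nat.log 2
      (2 * (p + 1) * (q * (2 ^ q) ^ (h + 1)) + (2 * q ^ (p + 1) + 2 * (p + 1) * q) + 2)) ^ p →
    2 * ((h + 1) * (2 * gates P M L s *
      Cst (2 * (p + 1)) w ((2 ^ (h + 2)) ^ (2 * (p + 1))))) < (2 ^ q) ^ (w + 1) ∧
    (P + 1) * (M + 1) ^ P * ((2 * P + 2) * w ^ (2 * (p + 1))) ^ (q ^ (p + 1)) <
      (q ^ (p + 1) - 1) ^ (q ^ (p + 1))

/-- The main theorem. -/
def S_main : Prop := ∀ p d : ℕ, 1 ≤ p → 2 * p + 2 ≤ d → ¬ AC0Red p d 1

end Pool.Agent.Lib.MP_b4f117_lc.AC
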