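import Pool.Agent.Lib.MP_b4f117_lc.AC.P.Sw
import Pool.Agent.Lib.MP_b4f117_lc.AC.P.Or
import Pool.Agent.Lib.MP_b4f117_lc.AC.P.Lit
import Pool.Agent.Lib.MP_b4f117_lc.AC.P.Fill
import Pool.Agent.Lib.MP_b4f117_lc.AC.P.One
import Pool.Agent.Lib.MP_b4f117_lc.AC.P.Stages
import Pool.Agent.Lib.MP_b4f117_lc.AC.P.Emb
import Pool.Agent.Lib.MP_b4f117_lc.AC.P.Uniq
import Pool.Agent.Lib.MP_b4f117_lc.AC.P.Tree
import Pool.Agent.Lib.MP_b4f117_lc.AC.P.Proj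
import Pool.Agent.Lib.MP_b4f117_lc.AC.P.Srcsat
import Pool.Agent.Lib.MP_b4f117_lc.AC.P.Subs
import Pool.Agent.Lib.MP_b4f117_lc.AC.P.Str
import Pool.Agent.Lib.MP_b4f117_lc.AC.P.Form
import Pool.Agent.Lib.MP_b4f117_lc.AC.P.Ecert
import Pool.Agent.Lib.MP_b4f117_lc.AC.P.Num
import Pool.Agent.Lib.MP_b4f117_lc.AC.P.Main

/-!
# All pieces together
-/

set_option autoImplicit false

namespace Pool.Agent.Lib.MP_b4f117_lc.AC

theorem not_ac0Red : S_main :=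
  p_main (p_stages (p_one p_sw p_or p_fill)) p_emb p_lvcard p_uniq p_tree p_proj p_srcsat p_subs
    p_str p_form p_ecert p_num p_lit p_or

end Pool.Agent.Lib.MP_b4f117_lc.AC
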