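import Pool.Agent.Lib.MP_b4f117_lc.AC.Defs

/-!
# Inputs indexed by hyperedges, planted inputs
-/

set_option autoImplicit false

namespace Pool.Agent.Lib.MP_b4f117_lc.AC

/-! ### Hypergraph inputs

`G` is the set of groups; in every group there are `q` colours, for every colour there are
vertices indexed by `A`. An entry picks one vertex of every group. -/

section Hyp

variable (G : Type) (q : ℕ)

/-- the vertices `(g, (a, v))`: group, colour, index -/
abbrev Vx (A : Type) : Type := G × (Fin q × A)

/-- the entries: one vertex `(g, e g)` of every group `g` -/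
abbrev Ent (A : Type) : Type := G → Fin q × A

variable {G q} {A : Type}

/-- all vertices of the entry `e` belong to `U` -/
def Wi (e : Ent G q A) (U : Finset (Vx G q A)) : Prop := ∀ g, (g, e g) ∈ U

/-- every input with `f x` has a certificate of at most `w` vertices -/
def Cert (w : ℕ) (f : (Ent G q A → Bool) → Prop) : Prop :=
  ∀ x, f x → ∃ U : Finset (Vx G q A), U.card ≤ w ∧
    ∀ x' : Ent G q A → Bool, (∀ e, Wi e U → x' e = x e) → f x'

/-- certificates for both values -/
def BC (w : ℕ) (f : (Ent G q A → Bool) → Prop) : Prop :=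
  Cert w f ∧ Cert w (fun x => ¬ f x)

variable {B Q : ℕ}

/-- the vertex `(g, (a, v))` continued by `β` -/
def up (β : Vx G q A → Fin B) (u : Vx G q A) : Vx G q (A × Fin B) :=
  (u.1, (u.2.1, (u.2.2, β u)))

/-- the entry continued by `β` -/
def kap (β : Vx G q A → Fin B) (e : Ent G q A) : Ent G q (A × Fin B) :=
  fun g => ((e g).1, ((e g).2, β (g, e g)))

/-- the entry with the last coordinates removed -/
def prj (e : Ent G q (A × Fin B)) : Ent G q A := fun g => ((e g).1, (e g).2.1)

open Classical in
/-- The input which is `y` on the continued entries and noise elsewhere (noise `z e = 0` gives the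
value `true`). -/
noncomputable def Fill [NeZero Q] (β : Vx G q A → Fin B) (z : Ent G q (A × Fin B) → Fin Q)
    (y : Ent G q A → Bool) : Ent G q (A × Fin B) → Bool := fun e =>
  if e = kap β (prj e) then y (prj e) else decide (z e = 0)

end Hyp

/-! ### Levels -/

/-- strings of length `j` over `Fin B` -/
def Lv (B : ℕ) : ℕ → Type
  | 0 => Unit
  | j + 1 => Lv B j × Fin B

instance Lv.fintype (B : ℕ) : (j : ℕ) → Fintype (Lv B j)
  | 0 => inferInstanceAs (Fintype Unit)
  | j + 1 => @instFintypeProd _ _ (Lv.fintype B j) (Fin.fintype B)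

instance Lv.decEq (B : ℕ) : (j : ℕ) → DecidableEq (Lv B j)
  | 0 => inferInstanceAs (DecidableEq Unit)
  | j + 1 => @instDecidableEqProd _ _ (Lv.decEq B j) (instDecidableEqFin B)

/-- for every level the continuations of its vertices -/
def Be (G : Type) (q B : ℕ) : ℕ → Type
  | 0 => Unit
  | j + 1 => (Vx G q (Lv B j) → Fin B) × Be G q B j

instance Be.fintype (G : Type) [Fintype G] [DecidableEq G] (q B : ℕ) :
    (j : ℕ) → Fintype (Be G q B j)
  | 0 => inferInstanceAs (Fintype Unit)
  | j + 1 => @instFintypeProd _ _ (inferInstanceAs (Fintype (Vx G q (Lv B j) → Fin B)))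
      (Be.fintype G q B j)

section Emb

variable {G : Type} {q B Q : ℕ} [NeZero Q]

/-- The input of level `j` which is `y` on the planted entries and noise elsewhere. -/
noncomputable def Emb : (j : ℕ) → Be G q B j → (Ent G q (Lv B j) → Fin Q) →
    (Ent G q Unit → Bool) → (Ent G q (Lv B j) → Bool)
  | 0, _, _, y => y
  | j + 1, b, z, y => Fill (A := Lv B j) b.1 z (Emb j b.2 (fun e => z (kap b.1 e)) y)

/-- The planted vertex of every colour. -/
def pt : (j : ℕ) → Be G q B j → G → Fin q → Lv B j
  | 0, _, _, _ => ()
  | j + 1, b, g, a => (pt j b.2 g a, b.1 (g, (a, pt j b.2 g a)))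

/-- The entry with the colours `J` and the vertices `s`. -/
def ent {A : Type} (s : G → Fin q → A) (J : G → Fin q) : Ent G q A := fun g => (J g, s g (J g))

end Emb

end Pool.Agent.Lib.MP_b4f117_lc.AC
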